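import Pool.Agent.H791_Imb.Main

/-!
# MP_440a65_co: the multiset of edge imbalances is graphic

If every edge of a finite simple graph joins two vertices of different degrees, then the multiset of
the imbalances `|deg u - deg v|` of the edges `uv` is the multiset of degrees of a simple graph.
-/

set_option autoImplicit false

namespace Pool.Agent.Results.MP_440a65_co.ImbalanceGraphic

/-- The imbalance `|deg u - deg v|` of `e = uv` in the graph `G`. -/
def imb {V : Type*} [Fintype V] (G : SimpleGraph V) [DecidableRel G.Adj] (e : Sym2 V) : ℕ :=
  Sym2.lift ⟨fun u v => ((G.degree u : ℤ) - (G.degree v : ℤ)).natAbs,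
    fun u v => by dsimp only; omega⟩ e

/-- The multiset `M_G` of the imbalances of the edges of `G`. -/
def imbalances {V : Type*} [Fintype V] [DecidableEq V] (G : SimpleGraph V) [DecidableRel G.Adj] :
    Multiset ℕ :=
  G.edgeFinset.val.map (imb G)

/-- `M` is graphic: it is the multiset of the degrees of a simple graph with vertex set
`{0, …, n - 1}`, for some `n`. -/
def IsGraphic (M : Multiset ℕ) : Prop :=
  ∃ (n : ℕ) (H : SimpleGraph (Fin n)) (_ : DecidableRel H.Adj),
    (Finset.univ.val.map fun i => H.degree i) = M

/-- **Q1, in the affirmative.** If `imb(e) > 0` for every edge `e` of the finite simple graph `G`,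
then the multiset of the imbalances of the edges of `G` is graphic. -/
theorem result {V : Type*} [Fintype V] [DecidableEq V] (G : SimpleGraph V) [DecidableRel G.Adj]
    (h : ∀ e ∈ G.edgeFinset, 0 < imb G e) : IsGraphic (imbalances G) :=
  ⟨_, Pool.Agent.H791_Imb.main G h⟩

end Pool.Agent.Results.MP_440a65_co.ImbalanceGraphic
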